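import Pool.Agent.N214.TD.Stm

/-!
Assembly of the parts TD/*.
-/

set_option autoImplicit false

namespace Pool.Agent.N214.TD

open Finset Polynomial

/-- The fibres of the product map from the `n`-th power of the curve. -/
theorem fibres (hLAG : LAG) (hUNI : UNI) (hADJ : ADJ) {K : Type} [Field K] [IsAlgClosed K]
    {N n m : ℕ} {t : Fin N → K} (ht : Function.Injective t) (hm : m ≠ 0) (hn : 1 ≤ n) (hnN : n < N)
    {x x' : Fin n → Fin N → K} (hx : ∀ i, IsPoint t (fun _ => m) 1 (x i))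
    (hx' : ∀ i, IsPoint t (fun _ => m) 1 (x' i)) {c : K} (hc : c ≠ 0)
    (hprod : ∀ j, ∏ i, x' i j = c * ∏ i, x i j) :
    ∃ (σ : Equiv.Perm (Fin n)) (lam : Fin n → K) (eps : Fin n → Fin N → K),
      (∀ i, lam i ≠ 0) ∧ (∀ i j, eps i j ^ m = 1) ∧ (∀ j, ∏ i, eps i j = 1) ∧ ∏ i, lam i = c ∧
      ∀ i j, x' i j = lam i * eps i j * x (σ i) j := by
  have h1N : 1 < N := lt_of_le_of_lt hn hnN
  have hf : ∀ i, ∃ f : K[X], f ≠ 0 ∧ f.natDegree ≤ 1 ∧ ∀ j, x i j ^ m = f.eval (t j) :=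
    fun i => (hLAG K N 1 t (fun _ => m) (x i) ht (fun _ => hm) h1N).1 (hx i)
  have hg : ∀ i, ∃ f : K[X], f ≠ 0 ∧ f.natDegree ≤ 1 ∧ ∀ j, x' i j ^ m = f.eval (t j) :=
    fun i => (hLAG K N 1 t (fun _ => m) (x' i) ht (fun _ => hm) h1N).1 (hx' i)
  choose f hf0 hfd hfe using hf
  choose g hg0 hgd hge using hg
  have hcm : c ^ m ≠ 0 := pow_ne_zero _ hc
  have hP : ∏ i, g i = C (c ^ m) * ∏ i, f i := by
    have hdf : (∏ i, f i).natDegree ≤ n := by
      refine (natDegree_prod_le _ _).trans ?_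
      calc ∑ i, (f i).natDegree ≤ ∑ _i : Fin n, 1 := Finset.sum_le_sum fun i _ => hfd i
        _ = n := by simp
    have hdg : (∏ i, g i).natDegree ≤ n := by
      refine (natDegree_prod_le _ _).trans ?_
      calc ∑ i, (g i).natDegree ≤ ∑ _i : Fin n, 1 := Finset.sum_le_sum fun i _ => hgd i
        _ = n := by simp
    have hdc : (C (c ^ m) * ∏ i, f i).natDegree ≤ n :=
      (natDegree_C_mul_le _ _).trans hdf
    refine Polynomial.eq_of_natDegree_lt_card_of_eval_eq _ _ ht (fun j => ?_) ?_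
    · rw [eval_prod, eval_mul, eval_C, eval_prod]
      simp_rw [← hfe, ← hge]
      rw [Finset.prod_pow, Finset.prod_pow, hprod j, mul_pow]
    · rw [Fintype.card_fin]
      omega
  obtain ⟨σ, d, hd, hgf⟩ := hUNI K n f g (c ^ m) hcm hf0 hg0 hfd hgd hP
  have hpow : ∀ i j, x' i j ^ m = d i * x (σ i) j ^ m := by
    intro i j
    rw [hge, hgf, eval_mul, eval_C, hfe]
  have hprod' : ∀ j, ∏ i, x' i j = c * ∏ i, x (σ i) j := by
    intro j
    rw [hprod j, Equiv.prod_comp σ (fun i => x i j)]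
  have hex : ∃ j, ∀ i, x (σ i) j ≠ 0 := by
    by_contra hcon
    push Not at hcon
    -- every `t j` is a root of the product
    have hz : ∏ i, f i = 0 := by
      have hdf : (∏ i, f i).natDegree ≤ n := by
        refine (natDegree_prod_le _ _).trans ?_
        calc ∑ i, (f i).natDegree ≤ ∑ _i : Fin n, 1 := Finset.sum_le_sum fun i _ => hfd i
          _ = n := by simp
      refine Polynomial.eq_of_natDegree_lt_card_of_eval_eq _ 0 ht (fun j => ?_) ?_
      · rw [eval_prod, eval_zero]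
        obtain ⟨i, hi⟩ := hcon j
        refine Finset.prod_eq_zero (Finset.mem_univ (σ i)) ?_
        rw [← hfe, hi, zero_pow hm]
      · rw [Fintype.card_fin, natDegree_zero, max_eq_left (Nat.zero_le _)]
        omega
    exact (Finset.prod_ne_zero_iff.2 fun i _ => hf0 i) hz
  obtain ⟨lam, eps, h1, h2, h3, h4, h5⟩ :=
    hADJ K N n m (fun i => x (σ i)) x' c d hm hn hd hc hpow hprod' hex
  exact ⟨σ, lam, eps, h1, h2, h3, h4, h5⟩

end Pool.Agent.N214.TD
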