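import Pool.Agent.N214.TD.Gen

/-!
Blocks of variables.
-/

set_option autoImplicit false

namespace Pool.Agent.N214.TD

open Finset Polynomial

/-- homogeneity -/
theorem eval_smul {K : Type} [Field K] {B m : ℕ} {G : MvPolynomial (Fin B) K}
    (hG : G.IsHomogeneous m) (c : K) (v : Fin B → K) :
    MvPolynomial.eval (c • v) G = c ^ m * MvPolynomial.eval v G := by
  rw [MvPolynomial.eval_eq, MvPolynomial.eval_eq, Finset.mul_sum]
  refine Finset.sum_congr rfl fun d hd => ?_
  have h1 : ∑ i ∈ d.support, d i = m := by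
    have h := hG (MvPolynomial.mem_support_iff.1 hd)
    rw [Finsupp.weight_apply] at h
    simpa [Finsupp.sum] using h
  have h2 : ∏ i ∈ d.support, (c • v) i ^ d i = c ^ m * ∏ i ∈ d.support, v i ^ d i := by
    rw [← h1, ← Finset.prod_pow_eq_pow_sum, ← Finset.prod_mul_distrib]
    refine Finset.prod_congr rfl fun i _ => ?_
    rw [Pi.smul_apply, smul_eq_mul, mul_pow]
  rw [h2]
  ring

/-- Points of the intersection of the forms `∑_j w_j t_j ^ k G_j (y_j)` at which not all `G_j` vanish. -/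
theorem blocks {K : Type} [Field K] [IsAlgClosed K] {N n : ℕ} {t : Fin N → K}
    (ht : Function.Injective t) {m B : Fin N → ℕ} (hm : ∀ j, m j ≠ 0) (hn : 1 ≤ n) (hnN : n < N)
    {G : (j : Fin N) → MvPolynomial (Fin (B j)) K} (hG : ∀ j, (G j).IsHomogeneous (m j))
    (y : (j : Fin N) → Fin (B j) → K) :
    ((∀ k : ℕ, k + n + 1 < N → ∑ j, wt t j * t j ^ k * MvPolynomial.eval (y j) (G j) = 0) ∧
      ∃ j, MvPolynomial.eval (y j) (G j) ≠ 0) ↔
    ∃ x : Fin n → Fin N → K, (∀ i, IsPoint t m 1 (x i)) ∧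
      ∀ j, (∏ i, x i j ≠ 0 ∧ ∃ v, MvPolynomial.eval v (G j) = 1 ∧ y j = (∏ i, x i j) • v) ∨
        (∏ i, x i j = 0 ∧ MvPolynomial.eval (y j) (G j) = 0) := by
  constructor
  · rintro ⟨h1, h2⟩
    have hz : ∀ j, ∃ z : K, z ^ m j = MvPolynomial.eval (y j) (G j) := fun j =>
      IsAlgClosed.exists_pow_nat_eq _ (Nat.pos_of_ne_zero (hm j))
    choose z hz using hz
    have hpt : IsPoint t m n z := by
      refine ⟨?_, fun k hk => ?_⟩
      · rintro rfl
        obtain ⟨j, hj⟩ := h2
        apply hj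
        rw [← hz j, Pi.zero_apply, zero_pow (hm j)]
      · rw [← h1 k hk]
        exact Finset.sum_congr rfl fun j _ => by rw [hz j]
    obtain ⟨x, hx, hxz⟩ := hSUR K N n t m z ht hm hnN (by omega) hn hpt
    refine ⟨x, hx, fun j => ?_⟩
    by_cases hzj : z j = 0
    · right
      refine ⟨by rw [← hxz j, hzj], ?_⟩
      rw [← hz j, hzj, zero_pow (hm j)]
    · left
      refine ⟨by rw [← hxz j]; exact hzj, (z j)⁻¹ • y j, ?_, ?_⟩
      · rw [eval_smul (hG j), ← hz j, inv_pow, inv_mul_cancel₀ (pow_ne_zero _ hzj)]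
      · rw [← hxz j, smul_smul, mul_inv_cancel₀ hzj, one_smul]
  · rintro ⟨x, hx, hxy⟩
    have hpt := hPRO K N n t m x ht hm hnN (by omega) hx
    have he : ∀ j, MvPolynomial.eval (y j) (G j) = (∏ i, x i j) ^ m j := by
      intro j
      rcases hxy j with ⟨_, v, hv, hy⟩ | ⟨h0, hy⟩
      · rw [hy, eval_smul (hG j), hv, mul_one]
      · rw [hy, h0, zero_pow (hm j)]
    refine ⟨fun k hk => ?_, ?_⟩
    · rw [← hpt.eqs k hk]
      exact Finset.sum_congr rfl fun j _ => by rw [he j]
    · by_contra hcon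
      push Not at hcon
      apply hpt.ne_zero
      funext j
      have := hcon j
      rw [he j] at this
      exact pow_eq_zero_iff (hm j) |>.1 this

end Pool.Agent.N214.TD
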