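import Mathlib

/-!
# Complete intersections of diagonal forms of Vandermonde type: definitions

`K` a field, `t_1, …, t_N ∈ K` different, `w_j = ∏_{l ≠ j} (t_j - t_l)⁻¹`. The point with the
coordinates `y_j`, not all zero, lies on `X_n` if `∑_j w_j t_j ^ k y_j ^ (m_j) = 0` for
`0 ≤ k ≤ N - n - 2`. The curve `C` is `X_1`.
-/

set_option autoImplicit false

namespace Pool.Agent.N214.TD

open Finset

/-- The weight `w_j = ∏_{l ≠ j} (t_j - t_l)⁻¹`. -/
def wt {K : Type} [Field K] {N : ℕ} (t : Fin N → K) (j : Fin N) : K :=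
  ∏ l ∈ univ.erase j, (t j - t l)⁻¹

/-- The vector `y` gives a point of `X_n`: it is not zero and satisfies the `N - n - 1` equations
`∑_j w_j t_j ^ k y_j ^ (m_j) = 0`, `0 ≤ k ≤ N - n - 2`. -/
structure IsPoint {K : Type} [Field K] {N : ℕ} (t : Fin N → K) (m : Fin N → ℕ) (n : ℕ)
    (y : Fin N → K) : Prop where
  ne_zero : y ≠ 0
  eqs : ∀ k : ℕ, k + n + 1 < N → ∑ j, wt t j * t j ^ k * y j ^ m j = 0

end Pool.Agent.N214.TD
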