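import Pool.Agent.N214.TD.Main

/-!
General exponents; zero-cycles.
-/

set_option autoImplicit false

namespace Pool.Agent.N214.TD

open Finset Polynomial

/-- smoothness for general exponents (proof of helper738) -/
theorem smooth_gen {K : Type} [Field K] {N n : ℕ} {m : Fin N → ℕ} {t : Fin N → K} {y : Fin N → K}
    (ht : Function.Injective t) (hm : ∀ j, (m j : K) ≠ 0) (hn : n < N) (hy : IsPoint t m n y) :
    LinearIndependent K fun (k : Fin (N - n - 1)) (j : Fin N) =>
      wt t j * t j ^ (k : ℕ) * ((m j : K) * y j ^ (m j - 1)) := by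
  classical
  have hm0 : ∀ j, m j ≠ 0 := by
    intro j h
    exact hm j (by simp [h])
  obtain ⟨f, hf0, hfd, hfe⟩ := (hLAG K N n t m y ht hm0 hn).1 hy
  have hZ : (univ.filter fun j => y j = 0).card ≤ n := by
    by_contra hlt
    push Not at hlt
    refine hf0 (Polynomial.eq_zero_of_degree_lt_of_eval_index_eq_zero
      (univ.filter fun j => y j = 0) (v := t) ht.injOn ?_ ?_)
    · refine lt_of_le_of_lt Polynomial.degree_le_natDegree ?_
      exact_mod_cast lt_of_le_of_lt hfd hlt
    · intro j hj
      rw [← hfe j, (Finset.mem_filter.1 hj).2]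
      exact zero_pow (hm0 j)
  have hS : N - n ≤ (univ.filter fun j => ¬ y j = 0).card := by
    have h1 := Finset.card_filter_add_card_filter_not (s := (univ : Finset (Fin N)))
      (fun j => y j = 0)
    rw [Finset.card_univ, Fintype.card_fin] at h1
    omega
  rw [Fintype.linearIndependent_iff]
  intro c hc
  obtain ⟨p, hp⟩ : ∃ p : K[X], p = ∑ k : Fin (N - n - 1), C (c k) * X ^ (k : ℕ) := ⟨_, rfl⟩
  have hp0 : p = 0 := by
    refine Polynomial.eq_zero_of_degree_lt_of_eval_index_eq_zero
      (univ.filter fun j => ¬ y j = 0) (v := t) ht.injOn ?_ ?_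
    · have h1 : p.degree < ((N - n - 1 : ℕ) : WithBot ℕ) := by
        rw [hp]
        exact Polynomial.degree_sum_fin_lt c
      refine lt_of_lt_of_le h1 ?_
      have h2 : N - n - 1 ≤ (univ.filter fun j => ¬ y j = 0).card := by omega
      exact_mod_cast h2
    · intro j hj
      have hyj : y j ≠ 0 := (Finset.mem_filter.1 hj).2
      have h1 := congrFun hc j
      rw [Finset.sum_apply] at h1
      have hw : wt t j ≠ 0 := by
        unfold wt
        refine Finset.prod_ne_zero_iff.2 fun l hl => inv_ne_zero (sub_ne_zero.2 fun h => ?_)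
        exact (Finset.mem_erase.1 hl).1 (ht h).symm
      have h2 : (wt t j * ((m j : K) * y j ^ (m j - 1))) * p.eval (t j) = 0 := by
        rw [hp, Polynomial.eval_finsetSum, Finset.mul_sum]
        refine Eq.trans ?_ h1
        refine Finset.sum_congr rfl fun k _ => ?_
        rw [Pi.smul_apply, smul_eq_mul, Polynomial.eval_mul, Polynomial.eval_C,
          Polynomial.eval_pow, Polynomial.eval_X]
        ring
      exact (mul_eq_zero.1 h2).resolve_left
        (mul_ne_zero hw (mul_ne_zero (hm j) (pow_ne_zero _ hyj)))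
  intro k
  have h1 : p.coeff (k : ℕ) = c k := by
    rw [hp, Polynomial.finsetSum_coeff]
    simp only [Polynomial.coeff_C_mul, Polynomial.coeff_X_pow, Fin.val_inj]
    simp
  rw [← h1, hp0, Polynomial.coeff_zero]

/-- If all points of `X_r` are equivalent, for relations which are compatible with the product, then
all points of `X_n` are equivalent for all `n ≥ r`. -/
theorem all_equiv {K : Type} [Field K] [IsAlgClosed K] {N : ℕ} {t : Fin N → K}
    (ht : Function.Injective t) {m : Fin N → ℕ} (hm : ∀ j, m j ≠ 0)
    {R : ℕ → (Fin N → K) → (Fin N → K) → Prop}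
    (htrans : ∀ n x y z, R n x y → R n y z → R n x z)
    (hmul : ∀ a b x y z, IsPoint t m a x → IsPoint t m a y → IsPoint t m b z → a + b < N →
      R a x y → R (a + b) (fun j => x j * z j) (fun j => y j * z j))
    {r : ℕ} (hr : 2 ≤ r) (hR : ∀ x y, IsPoint t m r x → IsPoint t m r y → R r x y) :
    ∀ n, r ≤ n → n < N → ∀ x y, IsPoint t m n x → IsPoint t m n y → R n x y := by
  intro n hn
  induction n, hn using Nat.le_induction with
  | base => exact fun _ => hR
  | succ n hn ih =>
    intro hN x y hx hy
    obtain ⟨u, p, hu, hp, hup⟩ := exists_mul ht hm (a := n) (b := 1) hN (by omega) le_rfl hx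
    obtain ⟨u', p', hu', hp', hup'⟩ := exists_mul ht hm (a := n) (b := 1) hN (by omega) le_rfl hy
    obtain ⟨k, rfl⟩ : ∃ k, n = k + 1 := ⟨n - 1, by omega⟩
    obtain ⟨w, q, hw, hq, hwq⟩ := exists_mul ht hm (a := k) (b := 1) (by omega) (by omega) le_rfl hu
    have e1 : x = fun j => u j * p j := funext hup
    have e2 : y = fun j => u' j * p' j := funext hup'
    have h1 : IsPoint t m (k + 1) (fun j => w j * p' j) := isPoint_mul ht hm (by omega) hw hp'
    have h2 : IsPoint t m (k + 1) (fun j => w j * p j) := isPoint_mul ht hm (by omega) hw hp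
    have r1 : R (k + 1 + 1) (fun j => u j * p j) (fun j => w j * p' j * p j) :=
      hmul (k + 1) 1 u (fun j => w j * p' j) p hu h1 hp hN (ih (by omega) u _ hu h1)
    have r2 : R (k + 1 + 1) (fun j => w j * p j * p' j) (fun j => u' j * p' j) :=
      hmul (k + 1) 1 (fun j => w j * p j) u' p' h2 hu' hp' hN (ih (by omega) _ u' h2 hu')
    have e3 : (fun j => w j * p' j * p j) = fun j => w j * p j * p' j := by
      funext j
      ring
    rw [e3] at r1
    rw [e1, e2]
    exact htrans _ _ _ _ r1 r2

end Pool.Agent.N214.TD
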