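import Pool.Agent.N214.TD.Asm
import Pool.Agent.N918.TD.LAG
import Pool.Agent.N918.TD.SUR
import Pool.Agent.N738.TD.PRO
import Pool.Agent.N738.TD.SMO
import Pool.Agent.N301.TD.UNI
import Pool.Agent.N301.TD.ADJ
import Pool.Agent.N301.TD.NOR

/-!
Assembly of the parts TD/*, final form.
-/

set_option autoImplicit false

namespace Pool.Agent.N214.TD

open Finset Polynomial

theorem hLAG : LAG := Pool.Agent.N918.TD.lag
theorem hSUR : SUR := Pool.Agent.N918.TD.sur
theorem hPRO : PRO := Pool.Agent.N738.TD.PRO hLAG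
theorem hUNI : UNI := Pool.Agent.N301.TD.uni
theorem hADJ : ADJ := Pool.Agent.N301.TD.adj
theorem hSMO : SMO := Pool.Agent.N738.TD.SMO hLAG
theorem hNOR : NOR := Pool.Agent.N301.TD.nor

/-- The coordinatewise product `X_a × X_b → X_(a+b)`. -/
theorem isPoint_mul {K : Type} [Field K] {N a b : ℕ} {t : Fin N → K} (ht : Function.Injective t)
    {m : Fin N → ℕ} (hm : ∀ j, m j ≠ 0) (hab : a + b < N) {x y : Fin N → K} (hx : IsPoint t m a x)
    (hy : IsPoint t m b y) : IsPoint t m (a + b) (fun j => x j * y j) := by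
  obtain ⟨f, hf0, hfd, hfe⟩ := (hLAG K N a t m x ht hm (by omega)).1 hx
  obtain ⟨g, hg0, hgd, hge⟩ := (hLAG K N b t m y ht hm (by omega)).1 hy
  refine (hLAG K N (a + b) t m _ ht hm hab).2 ⟨f * g, mul_ne_zero hf0 hg0, ?_, fun j => ?_⟩
  · exact natDegree_mul_le.trans (add_le_add hfd hgd)
  · rw [mul_pow, hfe, hge, eval_mul]

/-- Every point of `X_(a+b)` is a product of a point of `X_a` and a point of `X_b`. -/
theorem exists_mul {K : Type} [Field K] [IsAlgClosed K] {N a b : ℕ} {t : Fin N → K}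
    (ht : Function.Injective t) {m : Fin N → ℕ} (hm : ∀ j, m j ≠ 0) (hab : a + b < N) (ha : 1 ≤ a)
    (hb : 1 ≤ b) {z : Fin N → K} (hz : IsPoint t m (a + b) z) :
    ∃ x y : Fin N → K, IsPoint t m a x ∧ IsPoint t m b y ∧ ∀ j, z j = x j * y j := by
  obtain ⟨p, hp, hpz⟩ := hSUR K N (a + b) t m z ht hm hab (by omega) (by omega) hz
  refine ⟨fun j => ∏ i : Fin a, p (Fin.castAdd b i) j, fun j => ∏ i : Fin b, p (Fin.natAdd a i) j,
    hPRO K N a t m (fun i => p (Fin.castAdd b i)) ht hm (by omega) (by omega) (fun i => hp _),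
    hPRO K N b t m (fun i => p (Fin.natAdd a i)) ht hm (by omega) (by omega) (fun i => hp _),
    fun j => ?_⟩
  rw [hpz j, Fin.prod_univ_add]

end Pool.Agent.N214.TD
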