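import Pool.Agent.N214.TD.Defs

/-!
Exact statements of the subtasks TD/*.
-/

set_option autoImplicit false

namespace Pool.Agent.N214.TD

open Finset Polynomial

/-- TD/LAG. The equations say that the `y_j ^ (m_j)` are the values at the `t_j` of a polynomial of
degree at most `n`. -/
def LAG : Prop :=
  ∀ (K : Type) [Field K] (N n : ℕ) (t : Fin N → K) (m : Fin N → ℕ) (y : Fin N → K),
    Function.Injective t → (∀ j, m j ≠ 0) → n < N →
    (IsPoint t m n y ↔ ∃ f : K[X], f ≠ 0 ∧ f.natDegree ≤ n ∧ ∀ j, y j ^ m j = f.eval (t j))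

/-- TD/SUR. Each point of `X_n` is the coordinatewise product of `n` points of the curve `X_1`. -/
def SUR : Prop :=
  ∀ (K : Type) [Field K] [IsAlgClosed K] (N n : ℕ) (t : Fin N → K) (m : Fin N → ℕ) (y : Fin N → K),
    Function.Injective t → (∀ j, m j ≠ 0) → n < N → 1 < N → 1 ≤ n → IsPoint t m n y →
    ∃ x : Fin n → Fin N → K, (∀ i, IsPoint t m 1 (x i)) ∧ ∀ j, y j = ∏ i, x i j

/-- TD/PRO. The coordinatewise product of `n` points of the curve is a point of `X_n`. -/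
def PRO : Prop :=
  ∀ (K : Type) [Field K] (N n : ℕ) (t : Fin N → K) (m : Fin N → ℕ) (x : Fin n → Fin N → K),
    Function.Injective t → (∀ j, m j ≠ 0) → n < N → 1 < N → (∀ i, IsPoint t m 1 (x i)) →
    IsPoint t m n (fun j => ∏ i, x i j)

/-- TD/UNI. Unique factorisation of binary forms: polynomials `f_i`, `g_i` of degree at most `1`, not
zero, with `∏ g_i = c ∏ f_i`, are equal up to constants and a permutation. -/
def UNI : Prop :=
  ∀ (K : Type) [Field K] (n : ℕ) (f g : Fin n → K[X]) (c : K), c ≠ 0 → (∀ i, f i ≠ 0) →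
    (∀ i, g i ≠ 0) → (∀ i, (f i).natDegree ≤ 1) → (∀ i, (g i).natDegree ≤ 1) →
    ∏ i, g i = C c * ∏ i, f i →
    ∃ (σ : Equiv.Perm (Fin n)) (d : Fin n → K), (∀ i, d i ≠ 0) ∧ ∀ i, g i = C (d i) * f (σ i)

/-- TD/ADJ. From the equality of the `m`-th powers to roots of unity with product `1`. -/
def ADJ : Prop :=
  ∀ (K : Type) [Field K] [IsAlgClosed K] (N n m : ℕ) (x x' : Fin n → Fin N → K) (c : K)
    (d : Fin n → K), m ≠ 0 → 1 ≤ n → (∀ i, d i ≠ 0) → c ≠ 0 →
    (∀ i j, x' i j ^ m = d i * x i j ^ m) →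
    (∀ j, ∏ i, x' i j = c * ∏ i, x i j) → (∃ j, ∀ i, x i j ≠ 0) →
    ∃ (lam : Fin n → K) (eps : Fin n → Fin N → K), (∀ i, lam i ≠ 0) ∧
      (∀ i j, eps i j ^ m = 1) ∧ (∀ j, ∏ i, eps i j = 1) ∧ ∏ i, lam i = c ∧
      ∀ i j, x' i j = lam i * eps i j * x i j

/-- TD/SMO. `X_n` is a smooth complete intersection: the gradients of the equations are linearly
independent at each point (`m` is prime to the characteristic). -/
def SMO : Prop :=
  ∀ (K : Type) [Field K] (N n m : ℕ) (t : Fin N → K) (y : Fin N → K),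
    Function.Injective t → (m : K) ≠ 0 → n < N → IsPoint t (fun _ => m) n y →
    LinearIndependent K fun (k : Fin (N - n - 1)) (j : Fin N) =>
      wt t j * t j ^ (k : ℕ) * ((m : K) * y j ^ (m - 1))

/-- TD/NOR. Two diagonal forms in `n + 3` variables. -/
def NOR : Prop :=
  ∀ (K : Type) [Field K] [IsAlgClosed K] (N m : ℕ) (a b : Fin N → K), m ≠ 0 → 3 ≤ N →
    (∀ i j, i ≠ j → a i * b j ≠ a j * b i) →
    ∃ t s : Fin N → K, Function.Injective t ∧ (∀ j, s j ≠ 0) ∧ ∀ y : Fin N → K,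
      ((∑ j, a j * y j ^ m = 0 ∧ ∑ j, b j * y j ^ m = 0) ↔
        ∀ k : ℕ, k < 2 → ∑ j, wt t j * t j ^ k * (s j * y j) ^ m = 0)

end Pool.Agent.N214.TD
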